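import Pool.Agent.E8helper82.PN.Subc

set_option autoImplicit false

namespace Pool.Agent.E8helper59.PN

lemma vx_mem {n : ℕ} (u : Fin n → Bool) : (vx u : Fin n → ℝ) ∈ Cube n := by
  intro i
  unfold vx
  split_ifs
  · exact ⟨zero_le_one, le_rfl⟩
  · exact ⟨le_rfl, zero_le_one⟩

theorem t_DC : S_DC := fun _ _ hn hG hs =>
  ⟨Pool.Agent.E8helper82.PN.Dm_pos hn hG hs,
    fun u w => Pool.Agent.E8helper82.PN.le_Dm hG hs (vx_mem u) (vx_mem w)⟩

end Pool.Agent.E8helper59.PN
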