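import Pool.Agent.E8helper59.PN.Fin
import Pool.Agent.E8helper9.PN.Mono
import Pool.Agent.E8helper40.PN.Aff
import Pool.Agent.E8helper82.PN.Subc
import Pool.Agent.E8helper40.PN.VW
import Pool.Agent.E8helper51.PN.GC
import Pool.Agent.E8helper59.PN.Dc
import Pool.Agent.E8helper52.PN.Join
import Pool.Agent.E8helper33.PN.Jpar

/-!
# Project PN: the three theorems
-/

set_option autoImplicit false
open Set
open scoped Pointwise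

namespace Pool.Agent.E8helper59.PN

theorem norm_elim (n : ℕ) (F : Set (Fin n → ℝ)) (hn : 1 ≤ n) (hF : Body F) :
    Q1For n F ↔ NF n F :=
  nf_iff Pool.Agent.E8helper9.PN.t_MONO Pool.Agent.E8helper40.PN.t_AFF
    Pool.Agent.E8helper82.PN.t_SUBC Pool.Agent.E8helper40.PN.t_VW Pool.Agent.E8helper51.PN.t_GC
    t_DC n F hn hF

theorem par_all (n : ℕ) (F : Set (Fin n → ℝ)) (hn : 1 ≤ n) (hP : Par F) : Q1For n F := by
  intro G hG hs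
  obtain ⟨a, b⟩ := par_case Pool.Agent.E8helper40.PN.t_AFF
    Pool.Agent.E8helper82.PN.t_SUBC Pool.Agent.E8helper40.PN.t_VW Pool.Agent.E8helper51.PN.t_GC
    t_DC n hn G F hG hs hP
  exact ⟨a, fun hno => ⟨hP, b hno⟩⟩

theorem prod_all (n₁ n₂ : ℕ) (F₁ : Set (Fin n₁ → ℝ)) (F₂ : Set (Fin n₂ → ℝ)) (hn₁ : 1 ≤ n₁)
    (hn₂ : 1 ≤ n₂) (hF₁ : Body F₁) (hF₂ : Body F₂) (a₁ : Q1For n₁ F₁) (a₂ : Q1For n₂ F₂) :
    Q1For (n₁ + n₂) (Join n₁ n₂ F₁ F₂) := by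
  rw [norm_elim _ _ (by omega) (body_join n₁ n₂ F₁ F₂ hF₁ hF₂)]
  exact nf_join Pool.Agent.E8helper52.PN.t_JOIN Pool.Agent.E8helper33.PN.t_JPAR n₁ n₂ F₁ F₂ hn₁ hn₂
    hF₁ hF₂ ((norm_elim n₁ F₁ hn₁ hF₁).1 a₁) ((norm_elim n₂ F₂ hn₂ hF₂).1 a₂)

end Pool.Agent.E8helper59.PN
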