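import Pool.Agent.E8helper59.PN.Stm

set_option autoImplicit false
open Set
open scoped Pointwise

namespace Pool.Agent.E8helper59.PN

lemma body_linear {n : ℕ} (G : Set (Fin n → ℝ)) (L : (Fin n → ℝ) ≃ₗ[ℝ] (Fin n → ℝ)) (hG : Body G) :
    Body (L '' G) := by
  have hc : Continuous (L : (Fin n → ℝ) → (Fin n → ℝ)) := L.toContinuousLinearEquiv.continuous
  refine ⟨hG.1.image hc, ?_, ?_⟩
  · exact hG.2.1.linear_image (L : (Fin n → ℝ) →ₗ[ℝ] (Fin n → ℝ))
  · have h4 : (L.toContinuousLinearEquiv.toHomeomorph : (Fin n → ℝ) → (Fin n → ℝ)) '' interior G =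
        interior ((L.toContinuousLinearEquiv.toHomeomorph : (Fin n → ℝ) → (Fin n → ℝ)) '' G) :=
      L.toContinuousLinearEquiv.toHomeomorph.image_interior G
    have h5 : (interior ((L : (Fin n → ℝ) → (Fin n → ℝ)) '' G)) =
        (L : (Fin n → ℝ) → (Fin n → ℝ)) '' interior G := h4.symm
    rw [h5]
    exact hG.2.2.image _

lemma sym_linear {n : ℕ} (G : Set (Fin n → ℝ)) (L : (Fin n → ℝ) ≃ₗ[ℝ] (Fin n → ℝ))
    (hG : ∀ x ∈ G, -x ∈ G) : ∀ x ∈ L '' G, -x ∈ L '' G := by
  rintro _ ⟨x, hx, rfl⟩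
  exact ⟨-x, hG x hx, by simp⟩

/-- Q1 for parallelepipeds -/
theorem par_case (h2 : S_AFF) (h3 : S_SUBC) (h4 : S_VW) (h5 : S_GC) (h6 : S_DC) (n : ℕ)
    (hn : 1 ≤ n) (G F : Set (Fin n → ℝ)) (hG : Body G) (hs : ∀ x ∈ G, -x ∈ G) (hF : Par F) :
    Splits (2 ^ n) G F ∧ (¬ Splits (2 ^ n - 1) G F →
      Par G ∧ ∃ r : ℝ, 0 < r ∧ ∃ v : Fin n → ℝ, F = (fun x : Fin n → ℝ => r • x + v) '' G) := by
  obtain ⟨T, rfl⟩ := hF
  have hG' := body_linear G T.linear.symm hG
  have hs' := sym_linear G T.linear.symm hs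
  refine ⟨(h2 n _ G _ T).2 (h3 n _ hn hG' hs'), fun hno => ?_⟩
  rw [h2 n _ G _ T] at hno
  obtain ⟨hD, hle⟩ := h6 n _ hn hG' hs'
  obtain ⟨D, hDe⟩ : ∃ D, D = Dm (T.linear.symm '' G) (Cube n) := ⟨_, rfl⟩
  rw [← hDe] at hD hle
  have heq : ∀ u w : Fin n → Bool, u ≠ w → gauge (T.linear.symm '' G) (vx u - vx w) = D := by
    intro u w huw
    apply le_antisymm (hle u w)
    by_contra hlt
    push Not at hlt
    exact hno (h4 n _ u w hn hG' hs' huw (by rw [← hDe]; exact hlt))
  have hGe := h5 n _ D hn hG' hs' hD heq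
  -- `G` is the image of the cube of side `2/D`
  have hGT : ∀ x, x ∈ G ↔ ∀ i, |T.linear.symm x i| ≤ 1 / D := by
    intro x
    have h7 : T.linear.symm x ∈ T.linear.symm '' G ↔ x ∈ G :=
      T.linear.symm.injective.mem_set_image
    rw [← h7, hGe]
    exact Iff.rfl
  have hhalf : ∀ x : Fin n → ℝ, x ∈ Cube n ↔ ∀ i, |(2 / D) * (x i - 1 / 2)| ≤ 1 / D := by
    intro x
    unfold Cube
    simp only [mem_setOf_eq, mem_Icc]
    apply forall_congr'
    intro i
    rw [abs_mul, abs_of_pos (by positivity : (0 : ℝ) < 2 / D)]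
    rw [show (2 / D) * |x i - 1 / 2| = (1 / D) * (2 * |x i - 1 / 2|) by ring]
    constructor
    · rintro ⟨h8, h9⟩
      have : |x i - 1 / 2| ≤ 1 / 2 := abs_le.2 ⟨by linarith, by linarith⟩
      have h10 : (1 / D) * (2 * |x i - 1 / 2|) ≤ (1 / D) * 1 :=
        mul_le_mul_of_nonneg_left (by linarith) (by positivity)
      linarith
    · intro h8
      have h9 : 2 * |x i - 1 / 2| ≤ 1 := by
        by_contra hc
        push Not at hc
        have : (1 / D) * 1 < (1 / D) * (2 * |x i - 1 / 2|) :=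
          mul_lt_mul_of_pos_left hc (by positivity)
        linarith
      have h10 := abs_le.1 (show |x i - 1 / 2| ≤ 1 / 2 by linarith)
      exact ⟨by linarith [h10.1], by linarith [h10.2]⟩
  have hr : (0 : ℝ) < D / 2 := by positivity
  have hTx : ∀ x : Fin n → ℝ, T x = T.linear (x - fun _ => 1 / 2) + T (fun _ => 1 / 2) := by
    intro x
    have := T.map_vadd (fun _ => (1 / 2 : ℝ)) (x - fun _ => 1 / 2)
    simp only [vadd_eq_add, sub_add_cancel] at this
    exact this
  have hFG : T '' Cube n = (fun x : Fin n → ℝ => (D / 2) • x + T (fun _ => 1 / 2)) '' G := by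
    ext y
    constructor
    · rintro ⟨x, hx, rfl⟩
      refine ⟨(2 / D) • T.linear (x - fun _ => 1 / 2), ?_, ?_⟩
      · rw [hGT]
        intro i
        have := (hhalf x).1 hx i
        simpa [map_smul] using this
      · simp only
        rw [smul_smul, hTx x]
        have : D / 2 * (2 / D) = 1 := by field_simp
        rw [this, one_smul]
    · rintro ⟨g, hg, rfl⟩
      refine ⟨(D / 2) • T.linear.symm g + fun _ => 1 / 2, ?_, ?_⟩
      · rw [hhalf]
        intro i
        have := (hGT g).1 hg i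
        have h8 : (2 / D) * (((D / 2) • T.linear.symm g + (fun _ => (1 / 2 : ℝ)) : Fin n → ℝ) i - 1 / 2) =
            T.linear.symm g i := by
          simp only [Pi.add_apply, Pi.smul_apply, smul_eq_mul]
          field_simp
          ring
        rw [h8]
        exact this
      · rw [hTx]
        simp [map_smul]
  refine ⟨?_, D / 2, hr, T (fun _ => 1 / 2), hFG⟩
  refine ⟨T.trans ((AffineEquiv.constVAdd ℝ (Fin n → ℝ) (-T (fun _ => 1 / 2))).trans
    (LinearEquiv.smulOfNeZero ℝ (Fin n → ℝ) (2 / D) (by positivity)).toAffineEquiv), ?_⟩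
  ext y
  constructor
  · intro hy
    have h9 : (D / 2) • y + T (fun _ => 1 / 2) ∈ T '' Cube n := by
      rw [hFG]
      exact ⟨y, hy, rfl⟩
    obtain ⟨x, hx, hxe⟩ := h9
    refine ⟨x, hx, ?_⟩
    simp only [AffineEquiv.trans_apply, AffineEquiv.constVAdd_apply, vadd_eq_add,
      LinearEquiv.coe_toAffineEquiv, LinearEquiv.smulOfNeZero_apply]
    rw [hxe, neg_add_cancel_comm_assoc, smul_smul]
    have : 2 / D * (D / 2) = 1 := by field_simp
    rw [this, one_smul]
  · rintro ⟨x, hx, rfl⟩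
    have h9 : T x ∈ (fun x : Fin n → ℝ => (D / 2) • x + T (fun _ => 1 / 2)) '' G := by
      rw [← hFG]
      exact ⟨x, hx, rfl⟩
    obtain ⟨g, hg, hge⟩ := h9
    simp only [AffineEquiv.trans_apply, AffineEquiv.constVAdd_apply, vadd_eq_add,
      LinearEquiv.coe_toAffineEquiv, LinearEquiv.smulOfNeZero_apply]
    simp only at hge
    rw [← hge, neg_add_cancel_comm_assoc, smul_smul]
    have : 2 / D * (D / 2) = 1 := by field_simp
    rw [this, one_smul]
    exact hg

lemma body_sub {n : ℕ} (F : Set (Fin n → ℝ)) (hF : Body F) : Body (F - F) ∧ ∀ x ∈ F - F, -x ∈ F - F := by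
  refine ⟨⟨by rw [sub_eq_add_neg]; exact hF.1.add hF.1.neg, hF.2.1.sub hF.2.1, ?_⟩, ?_⟩
  · obtain ⟨x, hx⟩ := hF.2.2
    have h1 : interior F - F ⊆ interior (F - F) := by
      apply interior_maximal
      · exact sub_subset_sub_right interior_subset
      · exact isOpen_interior.sub_right
    exact ⟨x - x, h1 (sub_mem_sub hx (interior_subset hx))⟩
  · rintro _ ⟨a, ha, b, hb, rfl⟩
    exact ⟨b, hb, a, ha, by simp⟩

end Pool.Agent.E8helper59.PN
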