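import Pool.Agent.E8helper59.PN.Stm

set_option autoImplicit false
open Set
open scoped Pointwise

namespace Pool.Agent.E8helper59.PN

/-- Q1 for the body `F` with the norm of its difference body -/
def NF (n : ℕ) (F : Set (Fin n → ℝ)) : Prop :=
  Splits (2 ^ n) (F - F) F ∧ (¬ Splits (2 ^ n - 1) (F - F) F → Par F)

/-- the direct product of two bodies -/
def Join (n₁ n₂ : ℕ) (F₁ : Set (Fin n₁ → ℝ)) (F₂ : Set (Fin n₂ → ℝ)) : Set (Fin (n₁ + n₂) → ℝ) :=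
  {x | (fun i => x (Fin.castAdd n₂ i)) ∈ F₁ ∧ (fun i => x (Fin.natAdd n₁ i)) ∈ F₂}

/-- PN7. Partitions of a product. -/
def S_JOIN : Prop :=
  ∀ (n₁ n₂ k₁ k₂ k : ℕ) (F₁ : Set (Fin n₁ → ℝ)) (F₂ : Set (Fin n₂ → ℝ)), 1 ≤ n₁ → 1 ≤ n₂ →
    Body F₁ → Body F₂ → Splits k₁ (F₁ - F₁) F₁ → Splits k₂ (F₂ - F₂) F₂ → k₁ * k₂ ≤ k →
    Splits k (Join n₁ n₂ F₁ F₂ - Join n₁ n₂ F₁ F₂) (Join n₁ n₂ F₁ F₂)

/-- PN8. Products of parallelepipeds. -/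
def S_JPAR : Prop :=
  ∀ (n₁ n₂ : ℕ) (F₁ : Set (Fin n₁ → ℝ)) (F₂ : Set (Fin n₂ → ℝ)), Par F₁ → Par F₂ →
    Par (Join n₁ n₂ F₁ F₂)

end Pool.Agent.E8helper59.PN
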