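import Pool.Agent.E8helper59.PN.Asm
import Pool.Agent.E8helper59.PN.Stm2

set_option autoImplicit false
open Set
open scoped Pointwise

namespace Pool.Agent.E8helper59.PN

/-- the statement of Q1 for the norm with unit ball `G` and the body `F` -/
def Q1At (n : ℕ) (G F : Set (Fin n → ℝ)) : Prop :=
  Splits (2 ^ n) G F ∧ (¬ Splits (2 ^ n - 1) G F →
    Par F ∧ Par G ∧ ∃ r : ℝ, 0 < r ∧ ∃ v : Fin n → ℝ, F = (fun x : Fin n → ℝ => r • x + v) '' G)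

/-- the statement of Q1 for the body `F` and all norms -/
def Q1For (n : ℕ) (F : Set (Fin n → ℝ)) : Prop :=
  ∀ G : Set (Fin n → ℝ), Body G → (∀ x ∈ G, -x ∈ G) → Q1At n G F

lemma body_join (n₁ n₂ : ℕ) (F₁ : Set (Fin n₁ → ℝ)) (F₂ : Set (Fin n₂ → ℝ)) (h1 : Body F₁)
    (h2 : Body F₂) : Body (Join n₁ n₂ F₁ F₂) := by
  have hJ : Join n₁ n₂ F₁ F₂ = (fun p : (Fin n₁ → ℝ) × (Fin n₂ → ℝ) => Fin.append p.1 p.2) '' (F₁ ×ˢ F₂) := by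
    ext x
    constructor
    · rintro ⟨ha, hb⟩
      exact ⟨(_, _), ⟨ha, hb⟩, Fin.append_castAdd_natAdd⟩
    · rintro ⟨⟨a, b⟩, ⟨ha, hb⟩, rfl⟩
      refine ⟨?_, ?_⟩
      · simpa using ha
      · simpa using hb
  have hcont : Continuous (fun p : (Fin n₁ → ℝ) × (Fin n₂ → ℝ) => (Fin.append p.1 p.2 : Fin (n₁ + n₂) → ℝ)) := by
    apply continuous_pi
    intro i
    refine Fin.addCases (fun j => ?_) (fun j => ?_) i
    · simp only [Fin.append_left]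
      fun_prop
    · simp only [Fin.append_right]
      fun_prop
  refine ⟨?_, ?_, ?_⟩
  · rw [hJ]
    exact (h1.1.prod h2.1).image hcont
  · intro x hx y hy a b ha hb hab
    exact ⟨h1.2.1 hx.1 hy.1 ha hb hab, h2.2.1 hx.2 hy.2 ha hb hab⟩
  · obtain ⟨a, ha⟩ := h1.2.2
    obtain ⟨b, hb⟩ := h2.2.2
    refine ⟨Fin.append a b, mem_interior.2 ⟨{x | (fun i => x (Fin.castAdd n₂ i)) ∈ interior F₁ ∧
      (fun i => x (Fin.natAdd n₁ i)) ∈ interior F₂}, ?_, ?_, ?_⟩⟩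
    · rintro x ⟨hx, hy⟩
      exact ⟨interior_subset hx, interior_subset hy⟩
    · have c1 : Continuous (fun (x : Fin (n₁ + n₂) → ℝ) (i : Fin n₁) => x (Fin.castAdd n₂ i)) := by
        fun_prop
      have c2 : Continuous (fun (x : Fin (n₁ + n₂) → ℝ) (i : Fin n₂) => x (Fin.natAdd n₁ i)) := by
        fun_prop
      exact (isOpen_interior.preimage c1).inter (isOpen_interior.preimage c2)
    · refine ⟨?_, ?_⟩
      · simpa using ha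
      · simpa using hb

theorem nf_iff (h1 : S_MONO) (h2 : S_AFF) (h3 : S_SUBC) (h4 : S_VW) (h5 : S_GC) (h6 : S_DC) (n : ℕ)
    (F : Set (Fin n → ℝ)) (hn : 1 ≤ n) (hF : Body F) : Q1For n F ↔ NF n F := by
  constructor
  · intro h
    obtain ⟨hb, hs⟩ := body_sub F hF
    obtain ⟨a, b⟩ := h (F - F) hb hs
    exact ⟨a, fun hno => (b hno).1⟩
  · rintro ⟨a, b⟩ G hG hs
    refine ⟨h1 n _ G F hn hG hs hF a, fun hno => ?_⟩
    have hP : Par F := b (fun hsp => hno (h1 n _ G F hn hG hs hF hsp))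
    obtain ⟨hPG, hr⟩ := (par_case h2 h3 h4 h5 h6 n hn G F hG hs hP).2 hno
    exact ⟨hP, hPG, hr⟩

theorem nf_join (h7 : S_JOIN) (h8 : S_JPAR) (n₁ n₂ : ℕ) (F₁ : Set (Fin n₁ → ℝ))
    (F₂ : Set (Fin n₂ → ℝ)) (hn₁ : 1 ≤ n₁) (hn₂ : 1 ≤ n₂) (hF₁ : Body F₁) (hF₂ : Body F₂)
    (a₁ : NF n₁ F₁) (a₂ : NF n₂ F₂) : NF (n₁ + n₂) (Join n₁ n₂ F₁ F₂) := by
  have p₁ : 1 ≤ 2 ^ n₁ := Nat.one_le_two_pow
  have p₂ : 1 ≤ 2 ^ n₂ := Nat.one_le_two_pow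
  refine ⟨h7 n₁ n₂ _ _ _ F₁ F₂ hn₁ hn₂ hF₁ hF₂ a₁.1 a₂.1 (by rw [pow_add]), fun hno => ?_⟩
  have hP₁ : Par F₁ := by
    apply a₁.2
    intro hs
    apply hno
    refine h7 n₁ n₂ _ _ _ F₁ F₂ hn₁ hn₂ hF₁ hF₂ hs a₂.1 ?_
    rw [pow_add, Nat.sub_mul, one_mul]
    omega
  have hP₂ : Par F₂ := by
    apply a₂.2
    intro hs
    apply hno
    refine h7 n₁ n₂ _ _ _ F₁ F₂ hn₁ hn₂ hF₁ hF₂ a₁.1 hs ?_
    rw [pow_add, Nat.mul_sub, mul_one]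
    omega
  exact h8 n₁ n₂ F₁ F₂ hP₁ hP₂

end Pool.Agent.E8helper59.PN
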