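import Mathlib

/-!
# Project PN (MP_c15520_co): partition numbers of convex bodies; elimination of the norm.
Statements of the pieces. Nothing is proved here.
-/

set_option autoImplicit false
open Set
open scoped Pointwise

namespace Pool.Agent.E8helper59.PN

/-- the cube `[0,1]^n` -/
def Cube (n : ℕ) : Set (Fin n → ℝ) := {x | ∀ i, x i ∈ Icc (0 : ℝ) 1}

/-- the `G`-diameter of `F` -/
noncomputable def Dm {n : ℕ} (G F : Set (Fin n → ℝ)) : ℝ :=
  sSup ((fun p : (Fin n → ℝ) × (Fin n → ℝ) => gauge G (p.1 - p.2)) '' (F ×ˢ F))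

/-- `F` is the union of `k` sets of smaller `G`-diameter -/
def Splits {n : ℕ} (k : ℕ) (G F : Set (Fin n → ℝ)) : Prop :=
  ∃ A : Fin k → Set (Fin n → ℝ), (⋃ i, A i) = F ∧
    ∀ i, ∃ c : ℝ, c < Dm G F ∧ ∀ x ∈ A i, ∀ y ∈ A i, gauge G (x - y) ≤ c

/-- convex bodies -/
def Body {n : ℕ} (K : Set (Fin n → ℝ)) : Prop :=
  IsCompact K ∧ Convex ℝ K ∧ (interior K).Nonempty

/-- parallelepipeds -/
def Par {n : ℕ} (F : Set (Fin n → ℝ)) : Prop :=
  ∃ T : (Fin n → ℝ) ≃ᵃ[ℝ] (Fin n → ℝ), F = T '' Cube n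

/-- PN1. The norm of the difference body is the worst one. -/
def S_MONO : Prop :=
  ∀ (n k : ℕ) (G F : Set (Fin n → ℝ)), 1 ≤ n → Body G → (∀ x ∈ G, -x ∈ G) → Body F →
    Splits k (F - F) F → Splits k G F

/-- PN2. Affine invariance. -/
def S_AFF : Prop :=
  ∀ (n k : ℕ) (G C : Set (Fin n → ℝ)) (T : (Fin n → ℝ) ≃ᵃ[ℝ] (Fin n → ℝ)),
    Splits k G (T '' C) ↔ Splits k (T.linear.symm '' G) C

/-- PN3. The cube splits into `2^n` parts. -/
def S_SUBC : Prop :=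
  ∀ (n : ℕ) (G : Set (Fin n → ℝ)), 1 ≤ n → Body G → (∀ x ∈ G, -x ∈ G) →
    Splits (2 ^ n) G (Cube n)

/-- the vertex of the cube with index `u` -/
def vx {n : ℕ} (u : Fin n → Bool) : Fin n → ℝ := fun i => if u i then 1 else 0

/-- PN4. If some two vertices of the cube have a smaller distance, then `2^n - 1` parts suffice. -/
def S_VW : Prop :=
  ∀ (n : ℕ) (G : Set (Fin n → ℝ)) (u w : Fin n → Bool), 1 ≤ n → Body G → (∀ x ∈ G, -x ∈ G) →
    u ≠ w → gauge G (vx u - vx w) < Dm G (Cube n) → Splits (2 ^ n - 1) G (Cube n)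

/-- PN5. If all the distances of the vertices of the cube are equal, then `G` is a cube. -/
def S_GC : Prop :=
  ∀ (n : ℕ) (G : Set (Fin n → ℝ)) (D : ℝ), 1 ≤ n → Body G → (∀ x ∈ G, -x ∈ G) → 0 < D →
    (∀ u w : Fin n → Bool, u ≠ w → gauge G (vx u - vx w) = D) → G = {x | ∀ i, |x i| ≤ 1 / D}

/-- PN6. The diameter of the cube is positive and is attained at two vertices. -/
def S_DC : Prop :=
  ∀ (n : ℕ) (G : Set (Fin n → ℝ)), 1 ≤ n → Body G → (∀ x ∈ G, -x ∈ G) →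
    0 < Dm G (Cube n) ∧ ∀ u w : Fin n → Bool, gauge G (vx u - vx w) ≤ Dm G (Cube n)

end Pool.Agent.E8helper59.PN
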